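import Pool.Agent.H11.NS.Targets
import Mathlib

/-!
# Module OM of ns_modules: cube roots of unity in `ZMod ℓ` when `ℓ ≡ 1 mod 3`
-/

set_option autoImplicit false

namespace Pool.Agent.H50.NS

open Pool.Agent.H11.NS

theorem pf_om : T_OM := by
  intro ℓ hF h3
  have hp : ℓ.Prime := hF.out
  constructor
  · intro h0
    have h0' : ((3 : ℕ) : ZMod ℓ) = 0 := by exact_mod_cast h0
    have hd : ℓ ∣ 3 := (ZMod.natCast_eq_zero_iff 3 ℓ).1 h0'
    have h := (Nat.prime_dvd_prime_iff_eq hp Nat.prime_three).1 hd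
    subst h
    norm_num at h3
  · haveI : Fact (Nat.Prime 3) := ⟨Nat.prime_three⟩
    have hc : 3 ∣ Fintype.card (ZMod ℓ)ˣ := by
      rw [ZMod.card_units]
      have := hp.two_le
      omega
    obtain ⟨u, hu⟩ := exists_prime_orderOf_dvd_card 3 hc
    refine ⟨(u : ZMod ℓ), ?_, ?_⟩
    · have h1 : u ^ 3 = 1 := by
        rw [← hu]
        exact pow_orderOf_eq_one u
      rw [← Units.val_pow_eq_pow_val, h1, Units.val_one]
    · intro h1
      have h2 : u = 1 := Units.ext h1
      rw [h2, orderOf_one] at hu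
      omega

end Pool.Agent.H50.NS
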